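import Pool.Agent.helper58.FI.SpecC

/-!
# Row DOC: second main theorem
-/

set_option autoImplicit false

namespace Pool.Agent.FI

open Pool.Agent.helper58.DC Pool.Agent.DI Pool.Agent.GR Pool.Agent.OB Pool.Agent.DR

section

variable {G : Type} [Group G] [Finite G]

theorem DOC_ccm (hB2 : B2_stmt) (hSCH : SCH_stmt) (H : Subgroup G) (ψ : G → ℂ) (hψ : ψ ∈ IrrOn H) (z : G → ℂ) (hz : CF H z)
    (a : G) (ha : a ∈ H) : ∑ᶠ x, z x * ψ (a * x) = cc ψ z * ψ a := by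
  classical
  have _ := Fintype.ofFinite G
  obtain ⟨⟨n, hn, hn1, -⟩, hcl, -, -, -⟩ := (hB2 G H).2 ψ hψ
  have h1 : ψ 1 ≠ 0 := by
    rw [hn1]
    exact_mod_cast hn.ne'
  have hH : (Nat.card H : ℂ) ≠ 0 := by
    exact_mod_cast Nat.card_pos.ne'
  have hs : ∀ s ∈ H, ∑ x, z x * ψ (a * x) = ∑ x, z x * ψ (a * (s * x * s⁻¹)) := by
    intro s hs
    rw [← (MulAut.conj s).toEquiv.sum_comp]
    refine Finset.sum_congr rfl fun x _ => ?_
    have e1 : (MulAut.conj s).toEquiv x = s * x * s⁻¹ := rfl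
    rw [e1, hz.1 s hs x]
  have hcard : (Nat.card H : ℂ) * ∑ x, z x * ψ (a * x) = ∑ s ∈ (H : Set G).toFinset, ∑ x, z x * ψ (a * (s * x * s⁻¹)) := by
    rw [← Finset.sum_congr rfl (fun s hs' => hs s (by simpa using hs')), Finset.sum_const, nsmul_eq_mul]
    congr 2
    rw [Set.toFinset_card, ← Nat.card_eq_fintype_card]
    rfl
  have hS : ∀ x, ψ 1 * ∑ s ∈ (H : Set G).toFinset, ψ (a * (s * x * s⁻¹)) = (Nat.card H : ℂ) * ψ a * ψ x := by
    intro x
    rw [← hSCH G H ψ hψ a ha x, finsum_mem_eq_toFinset_sum]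
  rw [finsum_eq_sum_of_fintype]
  have h2 : (Nat.card H : ℂ) * (ψ 1 * ∑ x, z x * ψ (a * x)) = (Nat.card H : ℂ) * (ψ a * ∑ x, z x * ψ x) := by
    calc (Nat.card H : ℂ) * (ψ 1 * ∑ x, z x * ψ (a * x)) = ψ 1 * ((Nat.card H : ℂ) * ∑ x, z x * ψ (a * x)) := by ring
      _ = ψ 1 * ∑ x, ∑ s ∈ (H : Set G).toFinset, z x * ψ (a * (s * x * s⁻¹)) := by rw [hcard, Finset.sum_comm]
      _ = ∑ x, z x * (ψ 1 * ∑ s ∈ (H : Set G).toFinset, ψ (a * (s * x * s⁻¹))) := by
          rw [Finset.mul_sum]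
          refine Finset.sum_congr rfl fun x _ => ?_
          rw [← Finset.mul_sum]
          ring
      _ = ∑ x, z x * ((Nat.card H : ℂ) * ψ a * ψ x) := Finset.sum_congr rfl fun x _ => by rw [hS x]
      _ = (Nat.card H : ℂ) * (ψ a * ∑ x, z x * ψ x) := by
          rw [Finset.mul_sum, Finset.mul_sum]
          exact Finset.sum_congr rfl fun x _ => by ring
  have h3 := mul_left_cancel₀ hH h2
  unfold cc
  rw [finsum_eq_sum_of_fintype, div_mul_eq_mul_div, eq_div_iff h1]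
  linear_combination h3

theorem DOC_ev (hB2 : B2_stmt) (hSCH : SCH_stmt) (H : Subgroup G) (ψ : G → ℂ) (hψ : ψ ∈ IrrOn H) (e : G → ℂ) (he : CF H e)
    (h : G → ℂ) (hh : ∀ x, x ∉ H → h x = 0) (g : G) (hg : g ∈ H) : ev ψ (cv e h) g = cc ψ e * ev ψ h g := by
  classical
  have _ := Fintype.ofFinite G
  obtain ⟨-, hcl, -, -, -⟩ := (hB2 G H).2 ψ hψ
  unfold ev
  rw [finsum_eq_sum_of_fintype, finsum_eq_sum_of_fintype]
  have h1 : ∀ x, cv e h x = ∑ t, e t * h (t⁻¹ * x) := by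
    intro x
    unfold cv
    rw [finsum_eq_sum_of_fintype]
  calc ∑ x, cv e h x * ψ (g * x) = ∑ t, ∑ x, e t * h (t⁻¹ * x) * ψ (g * x) := by
        rw [Finset.sum_comm]
        refine Finset.sum_congr rfl fun x _ => ?_
        rw [h1 x, Finset.sum_mul]
    _ = ∑ t, ∑ u, e t * h u * ψ (g * (t * u)) := by
        refine Finset.sum_congr rfl fun t _ => ?_
        rw [← Equiv.sum_comp (Equiv.mulLeft t)]
        refine Finset.sum_congr rfl fun u _ => ?_
        have e1 : (Equiv.mulLeft t) u = t * u := rfl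
        rw [e1, inv_mul_cancel_left]
    _ = ∑ u, h u * ∑ t, e t * ψ ((u * g) * t) := by
        rw [Finset.sum_comm]
        refine Finset.sum_congr rfl fun u _ => ?_
        rw [Finset.mul_sum]
        refine Finset.sum_congr rfl fun t _ => ?_
        by_cases hu : u ∈ H
        · have e2 := hcl (g * (t * u)) u hu
          have e3 : u * (g * (t * u)) * u⁻¹ = (u * g) * t := by group
          rw [e3] at e2
          rw [e2]
          ring
        · rw [hh u hu]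
          ring
    _ = ∑ u, cc ψ e * (h u * ψ (g * u)) := by
        refine Finset.sum_congr rfl fun u _ => ?_
        by_cases hu : u ∈ H
        · have e4 := DOC_ccm hB2 hSCH H ψ hψ e he (u * g) (H.mul_mem hu hg)
          rw [finsum_eq_sum_of_fintype] at e4
          have e2 := hcl (g * u) u hu
          have e3 : u * (g * u) * u⁻¹ = u * g := by group
          rw [e3] at e2
          rw [e4, e2]
          ring
        · rw [hh u hu]
          ring
    _ = cc ψ e * ∑ x, h x * ψ (g * x) := by rw [Finset.mul_sum]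

theorem DOC_sub (χ a b : G → ℂ) (g : G) : ev χ (a - b) g = ev χ a g - ev χ b g := by
  classical
  have _ := Fintype.ofFinite G
  unfold ev
  rw [finsum_eq_sum_of_fintype, finsum_eq_sum_of_fintype, finsum_eq_sum_of_fintype, ← Finset.sum_sub_distrib]
  refine Finset.sum_congr rfl fun x _ => ?_
  rw [Pi.sub_apply]
  ring

end

theorem DOC (hKYH : KYH_stmt) (hTRX : TRX_stmt) (hIDM : IDM_stmt) (hEIN : EIN_stmt) (hCVF : CVF_stmt) (hSCH : SCH_stmt) (hZER : ZER_stmt)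
    (hEVC : EVC_stmt) (hCCI : CCI_stmt) (hEXP : EXP_stmt) (hB2 : B2_stmt) : DOC_stmt := by
  classical
  intro p M hM G _ _ H y hy hyp E S F hE hS hF hSF hcong χ' hχ' hχE
  obtain ⟨C, hC⟩ : ∃ C : Subgroup G, C = Cz H y := ⟨_, rfl⟩
  rw [← hC] at hS hF hcong ⊢
  have hCH : C ≤ H := by
    rw [hC]
    exact inf_le_left
  have hyC : y ∈ C := by
    rw [hC]
    refine ⟨hy, Subgroup.mem_centralizer_iff.2 ?_⟩
    intro z hz
    rw [Set.mem_singleton_iff] at hz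
    rw [hz]
  have hCmem : ∀ z ∈ H, z⁻¹ * y * z = y → z ∈ C := by
    intro z hz h
    rw [hC]
    refine ⟨hz, Subgroup.mem_centralizer_iff.2 ?_⟩
    intro w hw
    rw [Set.mem_singleton_iff] at hw
    rw [hw]
    calc y * z = z * (z⁻¹ * y * z) := by group
      _ = z * y := by rw [h]
  obtain ⟨hh, hcch, hhh, -⟩ := hIDM G C S hS.sub
  obtain ⟨he, hcce, hee, -⟩ := hIDM G H E hE.sub
  obtain ⟨hf, hccf, hff, -⟩ := hIDM G C F hF.sub
  have hhI := hEIN p M hM G C S hS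
  have heI := hEIN p M hM G H E hE
  obtain ⟨h, hhdef⟩ : ∃ h : G → ℂ, h = eS C S := ⟨_, rfl⟩
  obtain ⟨e, hedef⟩ : ∃ e : G → ℂ, e = eS H E := ⟨_, rfl⟩
  obtain ⟨f, hfdef⟩ : ∃ f : G → ℂ, f = eS C F := ⟨_, rfl⟩
  rw [← hhdef] at hh hcch hhh hhI ⊢
  rw [← hedef] at he hcce hee heI
  rw [← hfdef] at hf hccf hff
  have hcong' : ∀ z ∈ C, InM M (e z - f z) := by
    rw [hedef, hfdef]
    exact hcong
  obtain ⟨c1, c2, c3, c4, c5, c6, c7, c8, c9, c10, c11, c12⟩ := hCVF G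
  have hsH : ∀ x, x ∉ H → h x = 0 := fun x hx => hh.2 x fun hx' => hx (hCH hx')
  have hcomm : ∀ b : G → ℂ, (∀ x, x ∉ H → b x = 0) → cv e b = cv b e := fun b hb => c7 H e b he hb
  -- the idempotent
  obtain ⟨i, hidef⟩ : ∃ i : G → ℂ, i = h - cv e h := ⟨_, rfl⟩
  have hiH : ∀ x, x ∉ H → i x = 0 := by
    intro x hx
    rw [hidef, Pi.sub_apply, hsH x hx, c6 H e h he.2 hsH x hx, sub_zero]
  have hiI : ∀ x, IntAt M (i x) := by
    intro x
    rw [hidef, Pi.sub_apply]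
    exact (hhI x).sub hM (c11 p M hM e h heI hhI x)
  have hk : cv e h = cv h e := hcomm h hsH
  have hi1 : cv h (cv e h) = cv e h := by
    rw [← c1, ← hk, c1, hhh]
  have hi2 : cv (cv e h) h = cv e h := by
    rw [c1, hhh]
  have hi3 : cv (cv e h) (cv e h) = cv e h := by
    rw [c1, hi1, ← c1, hee]
  have hii : cv i i = i := by
    have e1 := (c2 h (cv e h) i).2.2.1
    rw [← hidef] at e1
    rw [e1]
    have e2 := (c2 h h (cv e h)).2.2.2
    have e3 := (c2 (cv e h) h (cv e h)).2.2.2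
    rw [← hidef] at e2 e3
    rw [e2, e3, hhh, hi1, hi2, hi3, sub_self, sub_zero, ← hidef]
  have hinv : ∀ l ∈ C, ∀ x, i (l * x * l⁻¹) = i x := by
    intro l hl x
    rw [hidef, Pi.sub_apply, Pi.sub_apply, hh.1 l hl x,
      c5 l e h (fun x => he.1 l (hCH hl) x) (fun x => hh.1 l hl x) x]
  -- the product with `f`
  have hfh : cv f h = h := by
    have hCF : CF C (cv f h - h) := (c8 C (cv f h) h (c8 C f h hf hh).1 hh).2.2
    have h0 : cv f h - h = 0 := by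
      refine hEXP G C _ hCF fun ψ hψ => ?_
      obtain ⟨k1, k2, -⟩ := hCCI G C ψ hψ
      rw [(k1 1 (cv f h) h).2.1, k2 f h hf hh, hccf ψ hψ, hcch ψ hψ]
      by_cases hs : ψ ∈ S
      · rw [if_pos hs, if_pos (hSF hs)]
        ring
      · rw [if_neg hs]
        ring
    exact sub_eq_zero.1 h0
  have hil : ∀ l ∈ C, InM M (i l) := by
    intro l hl
    have e1 : i l = -∑ᶠ x, (e x - f x) * h (x⁻¹ * l) := by
      have _ := Fintype.ofFinite G
      have e2 : h l = ∑ x, f x * h (x⁻¹ * l) := by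
        have e3 := congrFun hfh l
        unfold cv at e3
        rw [finsum_eq_sum_of_fintype] at e3
        exact e3.symm
      have e4 : cv e h l = ∑ x, e x * h (x⁻¹ * l) := by
        unfold cv
        rw [finsum_eq_sum_of_fintype]
      rw [hidef, Pi.sub_apply, e4, e2, finsum_eq_sum_of_fintype, ← Finset.sum_sub_distrib, ← Finset.sum_neg_distrib]
      exact Finset.sum_congr rfl fun x _ => by ring
    rw [e1]
    refine InM.neg (InM.finsum hM fun x => ?_)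
    by_cases hx : x ∈ C
    · exact InM.mul_right hM (hcong' x hx) (hhI _)
    · have h0 : h (x⁻¹ * l) = 0 := by
        refine hh.2 _ fun h1 => hx ?_
        have h2 := C.mul_mem hl (C.inv_mem h1)
        have h3 : l * (x⁻¹ * l)⁻¹ = x := by group
        rwa [h3] at h2
      rw [h0, mul_zero]
      exact InM.zero hM
  -- the key inequality
  have hcond : ∀ z ∈ H, ∀ w ∈ H, z⁻¹ * y * z = y → w⁻¹ * y * w = y → InM M (∑ᶠ x, i x * i (w⁻¹ * x⁻¹ * z)) := by
    intro z hz w hw hz1 hw1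
    have hzC := hCmem z hz hz1
    have hwC := hCmem w hw hw1
    have e1 : ∑ᶠ x, i x * i (w⁻¹ * x⁻¹ * z) = cv i i (z * w⁻¹) := by
      unfold cv
      refine finsum_congr fun x => ?_
      have e2 := hinv w hwC (w⁻¹ * x⁻¹ * z)
      have e3 : w * (w⁻¹ * x⁻¹ * z) * w⁻¹ = x⁻¹ * (z * w⁻¹) := by group
      rw [e3] at e2
      rw [e2]
    rw [e1, hii]
    exact hil _ (C.mul_mem hzC (C.inv_mem hwC))
  have hP1 : PReg p (1 : G) := by
    unfold PReg
    rw [orderOf_one]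
    exact hM.pr.one_lt.ne' ∘ Nat.dvd_one.1
  have hKY := hKYH p M hM G H i i hiH hiH hiI hiI hii hii y hy 1 H.one_mem y hy 1 H.one_mem hyp hyp hP1 hP1
    (Commute.one_right y) (Commute.one_right y) (by rw [mul_one]; exact hinv y hyC) (by rw [mul_one]; exact hinv y hyC) hcond
  rw [mul_one, hTRX G H i i hiH hiH y hy y hy] at hKY
  -- the values
  have hyI : y⁻¹ ∈ H := H.inv_mem hy
  have hval : ∀ ψ ∈ IrrOn H, ∀ g ∈ H, ev ψ i g = (if ψ ∈ E then 0 else 1) * ev ψ h g := by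
    intro ψ hψ g hg
    rw [hidef, DOC_sub, DOC_ev hB2 hSCH H ψ hψ e he h hsH g hg, hcce ψ hψ]
    split_ifs <;> ring
  have hfin : (IrrOn H).Finite := (hB2 G H).1
  obtain ⟨T, hT⟩ : ∃ T : Finset (G → ℂ), T = hfin.toFinset := ⟨_, rfl⟩
  have hTmem : ∀ ψ, ψ ∈ T ↔ ψ ∈ IrrOn H := fun ψ => by rw [hT, Set.Finite.mem_toFinset]
  have hX : ∑ᶠ ψ ∈ IrrOn H, ev ψ i y * ev ψ i y⁻¹ = ∑ ψ ∈ T, ev ψ i y * ev ψ i y⁻¹ := by
    rw [finsum_mem_eq_finite_toFinset_sum _ hfin, hT]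
  rw [hX] at hKY
  have hev : ∀ ψ ∈ IrrOn H, ev ψ h y⁻¹ = (starRingEnd ℂ) (ev ψ h y) ∧ IsIntegral ℤ ((Nat.card C : ℂ) * ev ψ h y) ∧
      IsIntegral ℤ ((Nat.card C : ℂ) * ev ψ h y⁻¹) := by
    intro ψ hψ
    have a1 := hEVC G C H S hS.sub hCH ψ hψ y hyC
    have a2 := hEVC G C H S hS.sub hCH ψ hψ y⁻¹ (C.inv_mem hyC)
    rw [← hhdef] at a1 a2
    exact ⟨a1.1, a1.2, a2.2⟩
  have hint : IsIntegral ℤ ((Nat.card C : ℂ) ^ 2 * ∑ ψ ∈ T, ev ψ i y * ev ψ i y⁻¹) := by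
    rw [Finset.mul_sum]
    refine IsIntegral.sum _ fun ψ hψ => ?_
    have hψ' := (hTmem ψ).1 hψ
    rw [hval ψ hψ' y hy, hval ψ hψ' y⁻¹ hyI]
    have a3 := (hev ψ hψ').2.1.mul (hev ψ hψ').2.2
    by_cases hs : ψ ∈ E
    · rw [if_pos hs]
      have : (Nat.card C : ℂ) ^ 2 * (0 * ev ψ h y * (0 * ev ψ h y⁻¹)) = 0 := by ring
      rw [this]
      exact isIntegral_zero
    · rw [if_neg hs]
      have : (Nat.card C : ℂ) ^ 2 * (1 * ev ψ h y * (1 * ev ψ h y⁻¹)) =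
          (Nat.card C : ℂ) * ev ψ h y * ((Nat.card C : ℂ) * ev ψ h y⁻¹) := by ring
      rw [this]
      exact a3
  have hzero := hZER p M hM _ hint fun r => Small.mul_left hM ((IntAt.natCast hM (Nat.card C)).pow hM 2) (hKY r)
  have hC0 : (Nat.card C : ℂ) ^ 2 ≠ 0 := by
    refine pow_ne_zero 2 ?_
    exact_mod_cast Nat.card_pos.ne'
  have hsum : ∑ ψ ∈ T, ev ψ i y * ev ψ i y⁻¹ = 0 := (mul_eq_zero.1 hzero).resolve_left hC0
  have hterm : ∀ ψ ∈ T, ev ψ i y * ev ψ i y⁻¹ = ((if ψ ∈ E then 0 else Complex.normSq (ev ψ h y) : ℝ) : ℂ) := by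
    intro ψ hψ
    have hψ' := (hTmem ψ).1 hψ
    rw [hval ψ hψ' y hy, hval ψ hψ' y⁻¹ hyI, (hev ψ hψ').1]
    by_cases hs : ψ ∈ E
    · rw [if_pos hs, if_pos hs]
      simp
    · rw [if_neg hs, if_neg hs, one_mul, one_mul, Complex.mul_conj]
  rw [Finset.sum_congr rfl hterm, ← Complex.ofReal_sum, Complex.ofReal_eq_zero] at hsum
  have hnn : ∀ ψ ∈ T, 0 ≤ (if ψ ∈ E then 0 else Complex.normSq (ev ψ h y) : ℝ) := by
    intro ψ _
    split_ifs
    · exact le_rfl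
    · exact Complex.normSq_nonneg _
  have hlast := (Finset.sum_eq_zero_iff_of_nonneg hnn).1 hsum χ' ((hTmem χ').2 hχ')
  rw [if_neg hχE] at hlast
  exact Complex.normSq_eq_zero.1 hlast

end Pool.Agent.FI
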