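import Pool.Agent.helper22.FI.SpecA

/-!
# Row ALP
-/

set_option autoImplicit false

namespace Pool.Agent.FI

open Pool.Agent.helper58.DC Pool.Agent.DI Pool.Agent.GR Pool.Agent.OB

theorem ALP_mem {G : Type} [Group G] (H : Subgroup G) (y x : G) :
    x ∈ Cz H y ↔ x ∈ H ∧ y * x = x * y := by
  unfold Cz
  rw [Subgroup.mem_inf, Subgroup.mem_centralizer_iff]
  simp

theorem ALP_card {G : Type} [Group G] [Fintype G] (K : Subgroup G) [Fintype (K : Set G)] :
    Nat.card K = (K : Set G).toFinset.card := by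
  rw [Set.toFinset_card, ← Nat.card_eq_fintype_card]
  rfl

open Classical in
theorem ALP_fib {G : Type} [Group G] [Fintype G] (H : Subgroup G) (w : G) (x : G) :
    (((((H : Set G).toFinset).filter fun h => h * w * h⁻¹ = x).card : ℕ) : ℂ) = (Nat.card (Cz H w) : ℂ) * cls H w x := by
  unfold cls
  by_cases h : ∃ l ∈ H, l * w * l⁻¹ = x
  · rw [if_pos h, mul_one]
    obtain ⟨l, hl, hlx⟩ := h
    have e : ((H : Set G).toFinset).filter (fun h => h * w * h⁻¹ = x) = ((Cz H w : Subgroup G) : Set G).toFinset.image (fun c => l * c) := by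
      ext h
      rw [Finset.mem_filter, Finset.mem_image, Set.mem_toFinset]
      constructor
      · rintro ⟨hh, hx⟩
        refine ⟨l⁻¹ * h, ?_, by group⟩
        rw [Set.mem_toFinset]
        refine (ALP_mem H w _).2 ⟨H.mul_mem (H.inv_mem hl) hh, ?_⟩
        have h1 : h * w * h⁻¹ = l * w * l⁻¹ := by rw [hx, hlx]
        calc w * (l⁻¹ * h) = l⁻¹ * (l * w * l⁻¹) * h := by group
          _ = l⁻¹ * (h * w * h⁻¹) * h := by rw [h1]
          _ = l⁻¹ * h * w := by group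
      · rintro ⟨c, hc, rfl⟩
        rw [Set.mem_toFinset] at hc
        obtain ⟨hc1, hc2⟩ := (ALP_mem H w c).1 hc
        refine ⟨H.mul_mem hl hc1, ?_⟩
        rw [← hlx]
        calc l * c * w * (l * c)⁻¹ = l * (c * w) * c⁻¹ * l⁻¹ := by group
          _ = l * (w * c) * c⁻¹ * l⁻¹ := by rw [hc2]
          _ = l * w * l⁻¹ := by group
    rw [e, Finset.card_image_of_injective _ (mul_right_injective l), ALP_card]
  · rw [if_neg h, mul_zero]
    have e : ((H : Set G).toFinset).filter (fun h => h * w * h⁻¹ = x) = ∅ := by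
      rw [Finset.filter_eq_empty_iff]
      intro a ha hax
      rw [Set.mem_toFinset] at ha
      exact h ⟨a, ha, hax⟩
    rw [e, Finset.card_empty, Nat.cast_zero]

theorem ALP_cls {G : Type} [Group G] [Finite G] (H : Subgroup G) (w : G) (θ : G → ℂ)
    (hcl : ∀ g, ∀ h ∈ H, θ (h * g * h⁻¹) = θ g) :
    (Nat.card (Cz H w) : ℂ) * ∑ᶠ x, cls H w x * θ x = (Nat.card H : ℂ) * θ w := by
  classical
  have _ := Fintype.ofFinite G
  rw [finsum_eq_sum_of_fintype, Finset.mul_sum]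
  have h1 : ∑ h ∈ (H : Set G).toFinset, θ (h * w * h⁻¹) = (Nat.card H : ℂ) * θ w := by
    rw [Finset.sum_congr rfl (fun h hh => hcl w h (by simpa using hh)), Finset.sum_const, nsmul_eq_mul, ← ALP_card]
  rw [← h1, ← Finset.sum_fiberwise ((H : Set G).toFinset) (fun h => h * w * h⁻¹) (fun h => θ (h * w * h⁻¹))]
  refine Finset.sum_congr rfl fun x _ => ?_
  have h2 : ∑ h ∈ ((H : Set G).toFinset).filter (fun h => h * w * h⁻¹ = x), θ (h * w * h⁻¹) =
      ∑ h ∈ ((H : Set G).toFinset).filter (fun h => h * w * h⁻¹ = x), θ x := by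
    refine Finset.sum_congr rfl fun h hh => ?_
    rw [(Finset.mem_filter.1 hh).2]
  rw [h2, Finset.sum_const, nsmul_eq_mul, ALP_fib]
  ring

theorem ALP (h1 : DVD_stmt) (h2 : SBI_stmt) (h3 : DCM_stmt) (h4 : CLS_stmt) (h5 : SYL_stmt) (h6 : B2_stmt) : ALP_stmt := by
  classical
  intro p M hM G _ _ L D x ψ hD hcom θ hθ hSB
  haveI : Fact p.Prime := ⟨hM.pr⟩
  obtain ⟨H, hH⟩ : ∃ H : Subgroup G, H = L ⊓ cz D := ⟨_, rfl⟩
  rw [← hH] at hθ ⊢
  have hHL : H ≤ L := by
    rw [hH]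
    exact inf_le_left
  have hHc : H ≤ cz D := by
    rw [hH]
    exact inf_le_right
  have hDL : D ≤ L := fun d hd => ((ALP_mem L x d).1 (hD.le hd)).1
  have hDH : D ≤ H := by
    rw [hH]
    refine le_inf hDL fun d hd => ?_
    exact Subgroup.mem_centralizer_iff.2 fun c hc => hcom c hc d hd
  obtain ⟨s1, -, -, s4, -, s6, -, -, s9⟩ := h5 p G
  have hDCz : ∀ y ∈ H, D ≤ Cz H y := by
    intro y hy d hd
    refine (ALP_mem H y d).2 ⟨hDH hd, ?_⟩
    exact (Subgroup.mem_centralizer_iff.1 (hHc hy) d hd).symm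
  -- the element `w`
  have hne : ¬ InM M (cc θ (cls L x)) := fun h => hD.ne (((h2 p M hM G L θ ψ hSB).2 x hD.mem).1 h)
  obtain ⟨l1, -, l3, l4, l5, -, -, -, -⟩ := h4 G L x
  have hIcc : ∀ y, IntAt M (cc θ (cls H y)) := by
    intro y
    obtain ⟨-, -, -, -, -, -, -, -, k9⟩ := h4 G H y
    exact IntAt.of_isIntegral hM (k9 H le_rfl θ hθ)
  have hex : ∃ w, ¬ InM M (cls L x w) ∧ ¬ InM M (cc θ (cls H w)) := by
    by_contra hcon
    push Not at hcon
    have k1 := (h3 G H M p hM).1 θ (cls L x) (fun l hl y => l1 l (hHL hl) y) (fun y => IntAt.of_isIntegral hM (l3 y)) hIcc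
    refine hne (k1.2 fun y => ?_)
    by_cases hy : InM M (cls L x y)
    · exact Or.inl hy
    · exact Or.inr (hcon y hy)
  obtain ⟨w, hw1, hw2⟩ := hex
  have hwx : ∃ l ∈ L, l * x * l⁻¹ = w := by
    rcases l5 w with h | h
    · exact absurd (by rw [h]; exact InM.zero hM) hw1
    · exact (l4 w).1 h
  have hwH : w ∈ H := by
    by_contra hcon
    obtain ⟨-, -, -, -, -, -, k7, -, -⟩ := h4 G H w
    apply hw2
    rw [k7 θ hθ.1 hcon]
    exact InM.zero hM
  obtain ⟨l, hl, hlx⟩ := hwx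
  have hwreg : PReg p w := by
    rw [← hlx]
    exact (s9 x l).1 hD.reg
  have hle1 : Nat.card D ≤ pp p (Cz H w) := (s1 D (Cz H w) hD.pg (hDCz w hwH)).1
  have hle2 : pp p (Cz H w) ≤ pp p (Cz L w) := by
    refine s4 _ _ fun g hg => ?_
    obtain ⟨g1, g2⟩ := (ALP_mem H w g).1 hg
    exact (ALP_mem L w g).2 ⟨hHL g1, g2⟩
  have heq : pp p (Cz L w) = Nat.card D := by
    rw [← hlx, (s6 L x l hl).2, hD.card]
  have hcard : Nat.card D = pp p (Cz H w) := le_antisymm hle1 (by rw [← heq]; exact hle2)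
  have hDef : DefL p M H θ D w :=
    { reg := hwreg
      mem := hwH
      le := hDCz w hwH
      pg := hD.pg
      card := hcard
      ne := hw2
      min := fun y hy _ => (s1 D (Cz H y) hD.pg (hDCz y hy)).1 }
  obtain ⟨-, -, hdv⟩ := h1 p M hM G H D w hHc θ hθ hDef
  obtain ⟨n, k, hn, hnk⟩ := hdv θ ⟨hθ, SB.refl _ _⟩
  obtain ⟨⟨n', hn'0, hn'1, -⟩, hcl, hint, -, -⟩ := (h6 G H).2 θ hθ
  have hθ1 : θ 1 ≠ 0 := by
    rw [hn'1]
    exact_mod_cast hn'0.ne'
  -- the `p'`-part of the centraliser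
  obtain ⟨s, hs⟩ : Nat.card D ∣ Nat.card (Cz H w) := by
    rw [hcard]
    unfold pp
    exact pow_padicValNat_dvd
  have hps : ¬ p ∣ s := by
    intro hdvd
    have hpos : Nat.card (Cz H w) ≠ 0 := Nat.card_pos.ne'
    have k2 : p ^ (padicValNat p (Nat.card (Cz H w)) + 1) ∣ Nat.card (Cz H w) := by
      have e1 : Nat.card D = p ^ padicValNat p (Nat.card (Cz H w)) := hcard
      obtain ⟨t, ht⟩ := hdvd
      refine ⟨t, ?_⟩
      conv_lhs => rw [hs, e1, ht]
      ring
    exact pow_succ_padicValNat_not_dvd hpos k2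
  have hmain := ALP_cls H w θ hcl
  have hcc : θ 1 * cc θ (cls H w) = ∑ᶠ y, cls H w y * θ y := by
    unfold cc
    field_simp
  have hD0 : (Nat.card D : ℂ) ≠ 0 := by
    exact_mod_cast Nat.card_pos.ne'
  have hkey : (s : ℂ) * cc θ (cls H w) = (k : ℂ) * θ w := by
    rw [← hcc, hs, ← hnk] at hmain
    push_cast at hmain
    rw [hn] at hmain hθ1
    have h7 : (n : ℂ) * (Nat.card D : ℂ) ≠ 0 := mul_ne_zero hθ1 hD0
    refine mul_left_cancel₀ h7 ?_
    linear_combination hmain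
  have hIθ : IntAt M (θ w) := IntAt.of_isIntegral hM (hint w)
  have hnkθ : ¬ InM M ((k : ℂ) * θ w) := by
    intro h
    rw [← hkey] at h
    rcases InM.or hM (IntAt.natCast hM s) (hIcc w) h with h8 | h8
    · exact hps ((InM.natCast hM s).1 h8)
    · exact hw2 h8
  refine ⟨w, hwH, ⟨l, hl, hlx⟩, hwreg, hcard, hw2, fun h => hnkθ (InM.mul_left hM (IntAt.natCast hM k) h), hDef, n, k, hn, hnk, fun h => ?_⟩
  exact hnkθ (InM.mul_right hM ((InM.natCast hM k).2 h) hIθ)

end Pool.Agent.FI
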