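import Pool.Agent.helper22.FI.SpecA

/-!
# Row EQY: the block idempotents of `H` and of `C_H(y)`, relative form
-/

set_option autoImplicit false

namespace Pool.Agent.FI

open Pool.Agent.helper58.DC Pool.Agent.DI Pool.Agent.GR Pool.Agent.OB

theorem EQY_mem {G : Type} [Group G] (H : Subgroup G) (y x : G) :
    x ∈ Cz H y ↔ x ∈ H ∧ y * x = x * y := by
  unfold Cz
  rw [Subgroup.mem_inf, Subgroup.mem_centralizer_iff]
  simp

theorem EQY_alg {A : Type} [AddCommGroup A] (m : A → A → A)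
    (hass : ∀ a b c, m (m a b) c = m a (m b c))
    (hadd : ∀ a b c, m (a + b) c = m a c + m b c) (hadd' : ∀ a b c, m a (b + c) = m a b + m a c)
    (hsub : ∀ a b c, m (a - b) c = m a c - m b c) (hsub' : ∀ a b c, m a (b - c) = m a b - m a c)
    (e f u : A) (he : m e e = e + u) (hf : m f f = f) (hc : m e f = m f e) (hu : m u e = m e u)
    (hu' : m u f = m f u) :
    m (m (e - f) (e - f)) (e - f) - (e - f) = u + m e u - (m f u + m f u + m f u) := by
  have h1 : m (m f e) e = m f e + m f u := by rw [hass, he, hadd']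
  have h2 : m (m f e) f = m f e := by rw [← hc, hass, hf]
  have h3 : m (e - f) (e - f) = e + u - m f e - (m f e - f) := by
    rw [hsub, hsub', hsub', he, hf, hc]
  rw [h3, hsub, hsub, hadd, hsub, hsub', hsub', hsub', hsub', he, hf, hc, h1, h2, hu, hu']
  abel

theorem EQY (h1 : BLE_stmt) (h2 : BRH_stmt) (h3 : LIF_stmt) (h4 : NIL_stmt) (h5 : CVF_stmt) (h6 : CCI_stmt) (h7 : IDM_stmt) (h8 : C3_stmt) : EQY_stmt := by
  classical
  intro p M hS G _ _ H y hy hyP θ x hx
  obtain ⟨hass, hbil, -, -, -, -, hcomm, hCF, -, -, -, hInM⟩ := h5 G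
  have hLH : Cz H y ≤ H := fun g hg => ((EQY_mem H y g).1 hg).1
  obtain ⟨bH, eCF, he, eid, -, -, -, hBlq⟩ := h1 p M hS G H H le_rfl θ
  obtain ⟨bL, fCF, hf, fid, -, -, -, -⟩ := h1 p M hS G H (Cz H y) hLH θ
  rw [hBlq] at bH eCF he eid
  obtain ⟨-, ecc, -, -⟩ := h7 G H _ bH.sub
  obtain ⟨-, fcc, -, -⟩ := h7 G (Cz H y) _ bL.sub
  set e : G → ℂ := eS H (Bl M H θ) with hedef
  set f : G → ℂ := eS (Cz H y) (Bq M H (Cz H y) θ) with hfdef
  obtain ⟨hbr, e'CF, he'⟩ := h2 p M hS G H y hy hyP e e eCF eCF he he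
  set e' : G → ℂ := rs y e with he'def
  have heq : ∀ c ∈ Cz H y, e' c = e c := by
    intro c hc
    rw [he'def]
    unfold rs
    rw [if_pos ((EQY_mem H y c).1 hc).2]
  -- the null function u
  set u : G → ℂ := cv e' e' - e' with hudef
  have hee : CF (Cz H y) (cv e' e') := (hCF (Cz H y) e' e' e'CF e'CF).1
  have huCF : CF (Cz H y) u := (hCF (Cz H y) (cv e' e') e' hee e'CF).2.2
  have hu : ∀ c, InM M (u c) := by
    intro c
    by_cases hc : c ∈ Cz H y
    · have k1 := (hbr c hc).neg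
      rw [eid] at k1
      have k2 : u c = -(e c - cv e' e' c) := by
        rw [hudef, Pi.sub_apply, heq c hc]
        ring
      rw [k2]
      exact k1
    · rw [huCF.2 c hc]
      exact InM.zero hS
  have hzid : cv (cv (e' - f) (e' - f)) (e' - f) - (e' - f) =
      u + cv e' u - (cv f u + cv f u + cv f u) := by
    refine EQY_alg cv hass (fun a b c => (hbil a b c).1) (fun a b c => (hbil a b c).2.1)
      (fun a b c => (hbil a b c).2.2.1) (fun a b c => (hbil a b c).2.2.2) e' f u ?_ fid ?_ ?_ ?_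
    · rw [hudef]
      abel
    · exact hcomm (Cz H y) e' f e'CF fCF.2
    · exact hcomm (Cz H y) u e' huCF e'CF.2
    · exact hcomm (Cz H y) u f huCF fCF.2
  have hzCF : CF (Cz H y) (e' - f) := (hCF (Cz H y) e' f e'CF fCF).2.2
  have hzint : ∀ c, IntAt M ((e' - f) c) := fun c => (he' c).sub hS (hf c)
  have hznull : ∀ c, InM M (cv (cv (e' - f) (e' - f)) (e' - f) c - (e' - f) c) := by
    intro c
    have k1 := congrFun hzid c
    rw [Pi.sub_apply] at k1
    rw [k1, Pi.sub_apply, Pi.add_apply, Pi.add_apply, Pi.add_apply]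
    have a1 := hInM p M hS e' u he' hu c
    have a2 := hInM p M hS f u hf hu c
    exact ((hu c).add hS a1).sub hS ((a2.add hS a2).add hS a2)
  have hcc : ∀ η ∈ IrrOn (Cz H y), InM M (cc η (e' - f)) := by
    intro η hη
    obtain ⟨hcc1, -, -⟩ := h6 G (Cz H y) η hη
    rw [(hcc1 1 e' f).2.1, fcc η hη]
    have k1 : cc η e' = cc η e := by
      unfold cc
      congr 1
      apply finsum_congr
      intro c
      by_cases hc : c ∈ Cz H y
      · rw [heq c hc]
      · rw [hη.1 c hc, mul_zero, mul_zero]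
    rw [k1]
    obtain ⟨ψ, hψ, hlif⟩ := h3 p M hS G H y hy hyP η hη
    have k2 := hlif e eCF he
    rw [ecc ψ hψ] at k2
    have hSB : SB M H η ψ := by
      intro z hz hi
      exact InM.mcong hS ((h8 G).1 (Cz H y) η hη z (fun l hl x => hz.1 l (hLH hl) x) hi)
        ((h8 G).1 H ψ hψ z (fun l hl x => hz.1 l hl x) hi)
        (hlif z hz fun x => IntAt.of_isIntegral hS (hi x))
    have hiff : (ψ ∈ Bl M H θ) ↔ (η ∈ Bq M H (Cz H y) θ) := by
      constructor
      · rintro ⟨_, k3⟩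
        exact ⟨hη, hSB.trans k3⟩
      · rintro ⟨_, k3⟩
        exact ⟨hψ, hSB.symm.trans k3⟩
    by_cases hB : ψ ∈ Bl M H θ
    · rw [if_pos hB] at k2
      rw [if_pos (hiff.1 hB)]
      exact k2
    · rw [if_neg hB] at k2
      rw [if_neg (fun h => hB (hiff.2 h))]
      exact k2
  have hfin := h4 p M hS G (Cz H y) (e' - f) hzCF hzint hcc hznull x
  rw [Pi.sub_apply, heq x hx] at hfin
  exact hfin

end Pool.Agent.FI
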